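import Pool.Agent.H33.DD2

set_option autoImplicit false

namespace Pool.Agent.Results.MP_414e75_gt.ZFCHausdorff

/-- D-space -/
def IsDSpace (X : Type) [TopologicalSpace X] : Prop :=
  ∀ N : X → Set X, (∀ x, IsOpen (N x) ∧ x ∈ N x) →
    ∃ D : Set X, IsClosed D ∧ DiscreteTopology D ∧ (⋃ d ∈ D, N d) = Set.univ

theorem result : ∃ (X : Type) (_ : TopologicalSpace X),
    T2Space X ∧ HereditarilyLindelofSpace X ∧ ¬ IsDSpace X := by
  obtain ⟨X, τ, t, a, U, b, c⟩ := Pool.Agent.H33.DD2.main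
  refine ⟨X, τ, t, ⟨fun S _ => a S⟩, fun h => ?_⟩
  obtain ⟨D, -, d, e⟩ := h U b
  exact c D d e

end Pool.Agent.Results.MP_414e75_gt.ZFCHausdorff
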